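import Pool.Agent.Helper62.BT.ERaux
import Pool.Agent.Helper83.BT.MV

namespace Pool.Helper4.BT
open MeasureTheory Metric Set Laplacian InnerProductSpace Filter Topology

theorem eps_reg : ∀ δ : ℝ, 0 < δ → ∃ ε : ℝ, 0 < ε ∧ ∀ (x : E) (s lam : ℝ) (v : E → ℝ), 0 < s →
    0 ≤ lam → lam * s ^ 2 ≤ 1 → ContDiff ℝ 2 v → Sol x s lam v →
    ∫ y in ball x s, |v y| ^ 3 ≤ ε → |v x| * s ^ 2 ≤ δ :=
  ER_of_mean_value mean_value

end Pool.Helper4.BT
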