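import Pool.Agent.Helper4.BT.Defs

namespace Pool.Helper4.BT
open MeasureTheory Metric Set Laplacian InnerProductSpace Filter Topology

/-- The Laplacian as a sum of second derivatives in the coordinate directions. -/
theorem LAP2_laplacian_eq (f : E → ℝ) (x : E) :
    (Δ f) x = ∑ i : Fin 6, fderiv ℝ (fderiv ℝ f) x (EuclideanSpace.single i 1)
      (EuclideanSpace.single i 1) := by
  rw [laplacian_eq_iteratedFDeriv_orthonormalBasis f (EuclideanSpace.basisFun (Fin 6) ℝ)]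
  simp [iteratedFDeriv_two_apply]

theorem LAP2_norm_sq (L : E →L[ℝ] ℝ) :
    ∑ i : Fin 6, (L (EuclideanSpace.single i 1)) ^ 2 = ‖L‖ ^ 2 := by
  have h1 : ∀ v, L v = inner ℝ ((InnerProductSpace.toDual ℝ E).symm L) v := by
    intro v; simp
  have h2 : ‖L‖ = ‖(InnerProductSpace.toDual ℝ E).symm L‖ := by simp
  rw [h2, EuclideanSpace.norm_sq_eq]
  refine Finset.sum_congr rfl fun i _ => ?_
  rw [h1, EuclideanSpace.inner_single_right]
  simp

theorem LAP2_diff {f : E → ℝ} {x : E} (hf : ContDiffAt ℝ 2 f x) :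
    DifferentiableAt ℝ (fderiv ℝ f) x :=
  (hf.fderiv_right (m := 1) (by norm_num)).differentiableAt (by norm_num)

theorem LAP2_ev {f : E → ℝ} {x : E} (hf : ContDiffAt ℝ 2 f x) :
    ∀ᶠ y in 𝓝 x, DifferentiableAt ℝ f y :=
  (hf.eventually (by simp)).mono fun _ hy => hy.differentiableAt (by norm_num)

theorem lap_exp (Φ : E → ℝ) (x : E) (hΦ : ContDiffAt ℝ 2 Φ x) :
    (Δ (fun y => Real.exp (Φ y))) x
      = Real.exp (Φ x) * ((Δ Φ) x + ‖fderiv ℝ Φ x‖ ^ 2) := by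
  have hd : fderiv ℝ (fun y => Real.exp (Φ y)) =ᶠ[𝓝 x]
      fun y => Real.exp (Φ y) • fderiv ℝ Φ y := by
    filter_upwards [LAP2_ev hΦ] with y hy
    exact (hy.hasFDerivAt.exp).fderiv
  have h2 : HasFDerivAt (fun y => Real.exp (Φ y) • fderiv ℝ Φ y)
      (Real.exp (Φ x) • fderiv ℝ (fderiv ℝ Φ) x +
        (Real.exp (Φ x) • fderiv ℝ Φ x).smulRight (fderiv ℝ Φ x)) x := by
    have ha : HasFDerivAt (fun y => Real.exp (Φ y)) (Real.exp (Φ x) • fderiv ℝ Φ x) x :=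
      (hΦ.differentiableAt (by norm_num)).hasFDerivAt.exp
    exact ha.smul (LAP2_diff hΦ).hasFDerivAt
  rw [LAP2_laplacian_eq, LAP2_laplacian_eq, hd.fderiv_eq, h2.fderiv, ← LAP2_norm_sq,
    ← Finset.sum_add_distrib, Finset.mul_sum]
  refine Finset.sum_congr rfl fun i _ => ?_
  simp
  ring

theorem lap_mul (f g : E → ℝ) (x : E) (hf : ContDiffAt ℝ 2 f x) (hg : ContDiffAt ℝ 2 g x) :
    (Δ (fun y => f y * g y)) x = f x * (Δ g) x + g x * (Δ f) x
      + 2 * ∑ i : Fin 6, fderiv ℝ f x (EuclideanSpace.single i 1)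
          * fderiv ℝ g x (EuclideanSpace.single i 1) := by
  have hd : fderiv ℝ (fun y => f y * g y) =ᶠ[𝓝 x]
      fun y => f y • fderiv ℝ g y + g y • fderiv ℝ f y := by
    filter_upwards [LAP2_ev hf, LAP2_ev hg] with y hy hy'
    exact (hy.hasFDerivAt.mul hy'.hasFDerivAt).fderiv
  have hf1 : HasFDerivAt f (fderiv ℝ f x) x := (hf.differentiableAt (by norm_num)).hasFDerivAt
  have hg1 : HasFDerivAt g (fderiv ℝ g x) x := (hg.differentiableAt (by norm_num)).hasFDerivAt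
  have h2 : HasFDerivAt (fun y => f y • fderiv ℝ g y + g y • fderiv ℝ f y)
      ((f x • fderiv ℝ (fderiv ℝ g) x + (fderiv ℝ f x).smulRight (fderiv ℝ g x)) +
        (g x • fderiv ℝ (fderiv ℝ f) x + (fderiv ℝ g x).smulRight (fderiv ℝ f x))) x :=
    (hf1.smul (LAP2_diff hg).hasFDerivAt).add (hg1.smul (LAP2_diff hf).hasFDerivAt)
  rw [LAP2_laplacian_eq, LAP2_laplacian_eq, LAP2_laplacian_eq, hd.fderiv_eq, h2.fderiv,
    Finset.mul_sum, Finset.mul_sum, Finset.mul_sum, ← Finset.sum_add_distrib,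
    ← Finset.sum_add_distrib]
  refine Finset.sum_congr rfl fun i _ => ?_
  simp
  ring

end Pool.Helper4.BT
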