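import Pool.Agent.Helper62.BT.LAP2

namespace Pool.Helper4.BT
open MeasureTheory Metric Set Laplacian InnerProductSpace Filter Topology

/-- Hölder replaced by a pointwise splitting. -/
theorem ER_integral_sq (v : E → ℝ) (hv : Continuous v) (y : E) (b κ : ℝ) (hb : 0 < b)
    (hκ : 0 < κ) (hI : ∫ z in ball y b, |v z| ^ 3 ≤ κ ^ 3) :
    ∫ z in ball y b, v z ^ 2 ≤ κ ^ 2 * b ^ 2 * (1 + (volume (ball (0 : E) 1)).toReal) := by
  have hcpt : IsCompact (closedBall y b) := isCompact_closedBall y b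
  have hi3 : IntegrableOn (fun z => |v z| ^ 3) (ball y b) :=
    ((hv.abs.pow 3).continuousOn.integrableOn_compact hcpt).mono_set ball_subset_closedBall
  have hi2 : IntegrableOn (fun z => v z ^ 2) (ball y b) :=
    ((hv.pow 2).continuousOn.integrableOn_compact hcpt).mono_set ball_subset_closedBall
  have hfin : volume (ball y b) ≠ ⊤ := measure_ball_lt_top.ne
  have hic : IntegrableOn (fun _ : E => (κ / b ^ 2) ^ 2) (ball y b) :=
    integrableOn_const hfin
  have hc : 0 < κ / b ^ 2 := by positivity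
  have hpt : ∀ z, v z ^ 2 ≤ (κ / b ^ 2)⁻¹ * |v z| ^ 3 + (κ / b ^ 2) ^ 2 := by
    intro z
    rcases le_total (κ / b ^ 2) |v z| with h | h
    · have h1 : v z ^ 2 = |v z| ^ 2 := (sq_abs _).symm
      have h2 : |v z| ^ 2 ≤ (κ / b ^ 2)⁻¹ * |v z| ^ 3 := by
        rw [inv_mul_eq_div, le_div_iff₀ hc]
        have : |v z| ^ 2 * (κ / b ^ 2) ≤ |v z| ^ 2 * |v z| :=
          mul_le_mul_of_nonneg_left h (by positivity)
        calc _ ≤ _ := this
          _ = |v z| ^ 3 := by ring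
      rw [h1]
      have : 0 ≤ (κ / b ^ 2) ^ 2 := by positivity
      linarith
    · have h1 : v z ^ 2 = |v z| ^ 2 := (sq_abs _).symm
      have h2 : |v z| ^ 2 ≤ (κ / b ^ 2) ^ 2 := pow_le_pow_left₀ (abs_nonneg _) h 2
      have : 0 ≤ (κ / b ^ 2)⁻¹ * |v z| ^ 3 := by positivity
      rw [h1]; linarith
  have hvol : (volume (ball y b)).toReal = b ^ 6 * (volume (ball (0 : E) 1)).toReal := by
    rw [Measure.addHaar_ball volume y hb.le]
    rw [ENNReal.toReal_mul, ENNReal.toReal_ofReal (by positivity)]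
    simp
  have hsum : IntegrableOn (fun z => (κ / b ^ 2)⁻¹ * |v z| ^ 3 + (κ / b ^ 2) ^ 2) (ball y b) := by
    have := (Integrable.const_mul hi3 (κ / b ^ 2)⁻¹).add hic
    exact this
  calc ∫ z in ball y b, v z ^ 2
      ≤ ∫ z in ball y b, ((κ / b ^ 2)⁻¹ * |v z| ^ 3 + (κ / b ^ 2) ^ 2) :=
        setIntegral_mono hi2 hsum hpt
    _ = (κ / b ^ 2)⁻¹ * (∫ z in ball y b, |v z| ^ 3)
        + (κ / b ^ 2) ^ 2 * (volume (ball y b)).toReal := by
        rw [integral_add (hi3.const_mul _) hic, integral_const_mul, setIntegral_const]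
        simp [Measure.real, mul_comm]
    _ ≤ (κ / b ^ 2)⁻¹ * κ ^ 3 + (κ / b ^ 2) ^ 2 * (volume (ball y b)).toReal := by
        have : (κ / b ^ 2)⁻¹ * (∫ z in ball y b, |v z| ^ 3) ≤ (κ / b ^ 2)⁻¹ * κ ^ 3 :=
          mul_le_mul_of_nonneg_left hI (by positivity)
        linarith
    _ = κ ^ 2 * b ^ 2 * (1 + (volume (ball (0 : E) 1)).toReal) := by
        rw [hvol]
        field_simp

theorem ER_of_mean_value (hmv : ∃ C : ℝ, 0 < C ∧ ∀ (x : E) (s L : ℝ) (g : E → ℝ), 0 < s → 0 ≤ L →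
    L * s ^ 2 ≤ 4 → ContDiff ℝ 2 g → (∀ y ∈ ball x s, 0 ≤ g y) →
    (∀ y ∈ ball x s, -(Δ g) y ≤ L * g y) →
    s ^ 6 * g x ≤ C * ∫ y in ball x s, g y) :
    ∀ δ : ℝ, 0 < δ → ∃ ε : ℝ, 0 < ε ∧ ∀ (x : E) (s lam : ℝ) (v : E → ℝ), 0 < s →
    0 ≤ lam → lam * s ^ 2 ≤ 1 → ContDiff ℝ 2 v → Sol x s lam v →
    ∫ y in ball x s, |v y| ^ 3 ≤ ε → |v x| * s ^ 2 ≤ δ := by
  obtain ⟨C, hC, hmv⟩ := hmv
  intro δ hδ
  set ω : ℝ := (volume (ball (0 : E) 1)).toReal with hω
  have hω0 : 0 ≤ ω := ENNReal.toReal_nonneg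
  -- choice of κ
  obtain ⟨κ, hκ, hκ1, hκ2⟩ : ∃ κ : ℝ, 0 < κ ∧ C * (1 + ω) * κ ^ 2 < 1 / 16 ∧
      C * (1 + ω) * κ ^ 2 ≤ (δ / 16) ^ 2 := by
    set B := C * (1 + ω) with hB
    have hB0 : 0 < B := by positivity
    set t := min (1 / 32) ((δ / 16) ^ 2) with ht
    have ht0 : 0 < t := by positivity
    refine ⟨√(t / B), by positivity, ?_, ?_⟩
    · rw [Real.sq_sqrt (by positivity), mul_div_cancel₀ _ hB0.ne']
      exact lt_of_le_of_lt (min_le_left _ _) (by norm_num)
    · rw [Real.sq_sqrt (by positivity), mul_div_cancel₀ _ hB0.ne']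
      exact min_le_right _ _
  refine ⟨κ ^ 3, by positivity, ?_⟩
  intro x s lam v hs hlam hls hv hsol hint
  have hvc : Continuous v := hv.continuous
  set s' := s / 2 with hs'
  have hs'0 : 0 < s' := by positivity
  -- maximum
  obtain ⟨y0, hy0, hmax⟩ := (isCompact_closedBall x s').exists_isMaxOn
    (f := fun y => (s' - dist y x) ^ 2 * |v y|) ⟨x, by simp [hs'0.le]⟩
    (by fun_prop)
  set M := (s' - dist y0 x) ^ 2 * |v y0| with hM
  have hM0 : 0 ≤ M := by positivity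
  have hmax' : ∀ y ∈ closedBall x s', (s' - dist y x) ^ 2 * |v y| ≤ M := fun y hy => hmax hy
  have hx : s' ^ 2 * |v x| ≤ M := by
    have := hmax' x (by simp [hs'0.le])
    simpa using this
  -- it suffices to bound M
  suffices hMδ : 4 * M ≤ δ by
    calc |v x| * s ^ 2 = 4 * (s' ^ 2 * |v x|) := by rw [hs']; ring
      _ ≤ 4 * M := by linarith
      _ ≤ δ := hMδ
  rcases hM0.eq_or_lt with hM00 | hMpos
  · rw [← hM00]; simpa using hδ.le
  have hd0 : dist y0 x ≤ s' := mem_closedBall.mp hy0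
  set a := (s' - dist y0 x) / 2 with ha
  have ha0 : 0 < a := by
    rcases hd0.eq_or_lt with h | h
    · exfalso
      rw [hM, h] at hMpos
      simp at hMpos
    · rw [ha]; linarith
  have hMa : M = 4 * a ^ 2 * |v y0| := by rw [hM, ha]; ring
  have hball : ∀ y ∈ ball y0 a, dist y x < s' - a := by
    intro y hy
    have h1 : dist y y0 < a := mem_ball.mp hy
    have h2 := dist_triangle y y0 x
    have h3 : dist y0 x = s' - 2 * a := by rw [ha]; ring
    linarith
  have hvb : ∀ y ∈ ball y0 a, |v y| ≤ M / a ^ 2 := by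
    intro y hy
    have h1 := hball y hy
    have h2 := hmax' y (mem_closedBall.mpr (by linarith))
    rw [le_div_iff₀ (by positivity)]
    have h3 : a ^ 2 ≤ (s' - dist y x) ^ 2 := pow_le_pow_left₀ ha0.le (by linarith) 2
    calc |v y| * a ^ 2 ≤ |v y| * (s' - dist y x) ^ 2 :=
          mul_le_mul_of_nonneg_left h3 (abs_nonneg _)
      _ = (s' - dist y x) ^ 2 * |v y| := by ring
      _ ≤ M := h2
  have has : a ≤ s / 4 := by
    rw [ha, hs']
    have := dist_nonneg (x := y0) (y := x)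
    linarith
  -- main estimate for a radius b
  have key : ∀ b : ℝ, 0 < b → b ≤ a → M * b ^ 2 ≤ a ^ 2 →
      b ^ 4 * (v y0) ^ 2 ≤ C * (1 + ω) * κ ^ 2 := by
    intro b hb hba hMb
    have hsub : ball y0 b ⊆ ball x s := by
      intro y hy
      have := hball y (ball_subset_ball hba hy)
      rw [mem_ball]; linarith
    have hlapb : ∀ y ∈ ball y0 b, -(Δ (fun z => v z * v z)) y
        ≤ (2 * (lam + M / a ^ 2)) * (v y * v y) := by
      intro y hy
      have h1 := lap_mul v v y hv.contDiffAt hv.contDiffAt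
      have h2 := hsol y (hsub hy)
      have h3 := hvb y (ball_subset_ball hba hy)
      have h4 : 0 ≤ ∑ i : Fin 6, fderiv ℝ v y (EuclideanSpace.single i 1)
          * fderiv ℝ v y (EuclideanSpace.single i 1) :=
        Finset.sum_nonneg fun i _ => mul_self_nonneg _
      have h5 : (Δ v) y = -(nl lam (v y)) := by linarith
      rw [h1, h5, nl]
      have h6 : |v y| * (v y * v y) ≤ M / a ^ 2 * (v y * v y) :=
        mul_le_mul_of_nonneg_right h3 (mul_self_nonneg _)
      nlinarith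
    have hL : 0 ≤ 2 * (lam + M / a ^ 2) := by positivity
    have hLb : 2 * (lam + M / a ^ 2) * b ^ 2 ≤ 4 := by
      have h1 : lam * b ^ 2 ≤ 1 := by
        have : b ^ 2 ≤ s ^ 2 := pow_le_pow_left₀ hb.le (by linarith) 2
        calc lam * b ^ 2 ≤ lam * s ^ 2 := mul_le_mul_of_nonneg_left this hlam
          _ ≤ 1 := hls
      have h2 : M / a ^ 2 * b ^ 2 ≤ 1 := by
        rw [div_mul_eq_mul_div, div_le_one (by positivity)]
        exact hMb
      nlinarith
    have hmv1 := hmv y0 b (2 * (lam + M / a ^ 2)) (fun z => v z * v z) hb hL hLb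
      (hv.mul hv) (fun y _ => mul_self_nonneg _) hlapb
    have hint' : ∫ z in ball y0 b, |v z| ^ 3 ≤ κ ^ 3 := by
      refine le_trans (setIntegral_mono_set ?_ ?_ (Eventually.of_forall hsub)) hint
      · exact ((hvc.abs.pow 3).continuousOn.integrableOn_compact
          (isCompact_closedBall x s)).mono_set ball_subset_closedBall
      · exact Eventually.of_forall fun z => by positivity
    have hsq := ER_integral_sq v hvc y0 b κ hb hκ hint'
    have heq : ∫ z in ball y0 b, v z * v z = ∫ z in ball y0 b, v z ^ 2 := by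
      simp only [pow_two]
    rw [heq] at hmv1
    have h7 : b ^ 6 * (v y0 * v y0) ≤ C * (κ ^ 2 * b ^ 2 * (1 + ω)) :=
      hmv1.trans (mul_le_mul_of_nonneg_left hsq hC.le)
    have h8 : b ^ 2 * (b ^ 4 * (v y0) ^ 2) ≤ b ^ 2 * (C * (1 + ω) * κ ^ 2) := by
      calc _ = b ^ 6 * (v y0 * v y0) := by ring
        _ ≤ _ := h7
        _ = _ := by ring
    exact le_of_mul_le_mul_left h8 (by positivity)
  have hMsq : M ^ 2 = 16 * (a ^ 4 * (v y0) ^ 2) := by
    rw [hMa]
    have : |v y0| ^ 2 = (v y0) ^ 2 := sq_abs _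
    calc (4 * a ^ 2 * |v y0|) ^ 2 = 16 * (a ^ 4 * |v y0| ^ 2) := by ring
      _ = _ := by rw [this]
  rcases le_or_gt M 1 with hM1 | hM1
  · have h1 := key a ha0 le_rfl (by nlinarith [sq_nonneg a])
    have h2 : M ^ 2 ≤ 16 * (δ / 16) ^ 2 := by rw [hMsq]; linarith
    have h3 : M ^ 2 ≤ (δ / 4) ^ 2 := by nlinarith
    have h4 : M ≤ δ / 4 := abs_le_of_sq_le_sq' h3 (by positivity) |>.2
    linarith
  · exfalso
    have hsq : 0 < √M := Real.sqrt_pos.mpr hMpos
    have hsqM : √M ^ 2 = M := Real.sq_sqrt hM0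
    have hs1 : 1 ≤ √M := by
      rw [show (1 : ℝ) = √1 by simp]
      exact Real.sqrt_le_sqrt hM1.le
    have h1 := key (a / √M) (by positivity) (div_le_self ha0.le hs1) (by
      rw [div_pow, hsqM]
      exact le_of_eq (mul_div_cancel₀ _ hMpos.ne'))
    have h2 : (a / √M) ^ 4 * (v y0) ^ 2 = 1 / 16 := by
      have h3 : (√M) ^ 4 = M ^ 2 := by
        calc (√M) ^ 4 = (√M ^ 2) ^ 2 := by ring
          _ = M ^ 2 := by rw [hsqM]
      rw [div_pow, h3]
      have h4 : a ^ 4 * (v y0) ^ 2 = M ^ 2 / 16 := by rw [hMsq]; ring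
      rw [div_mul_eq_mul_div, h4]
      field_simp
    rw [h2] at h1
    linarith

end Pool.Helper4.BT
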